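import Pool.Agent.H941.C.full_crossing
import Pool.Agent.H941.D.annulus_q2
import Pool.Agent.H941.D.thin_dgff
import Pool.Agent.H941.D.chem2

/-!
Problem MP_acf58e_pr, question Q1.  Write `D_N` for the chemical distance of `{η ≤ lam}` between `∂V_{αN}` and
`∂V_{βN}`.  Part 1: `P(D_N ≤ (K/δ) N | D_N < ∞) ≥ 1 - δ` for all levels `lam ≥ K (1 + log (1/δ))` and all large `N`.
Part 2: at every fixed real level, `P(D_N ≤ C N | D_N < ∞) ≥ 1 - δ` for all large `N` if the annulus is thin enough.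
Part 3: at every fixed real level, `P(D_N ≤ C N | D_N < ∞) ≥ c > 0` for all large `N`.
-/

open MeasureTheory ProbabilityTheory H941

theorem Pool.Agent.Results.MP_acf58e_pr.ConditionalLinearDistance.result :
    (∀ α β : ℝ, 0 < α → α < β → β < 1 →
      ∃ K : ℝ, 1 ≤ K ∧ ∀ δ : ℝ, 0 < δ → δ ≤ 1 → ∃ N₀ : ℕ, ∀ N : ℕ, N₀ ≤ N →
        ∀ lam : ℝ, K * (1 + Real.log (1 / δ)) ≤ lam →
        ∀ (Ω : Type*) [MeasurableSpace Ω] (P : Measure Ω) (η : ℤ × ℤ → Ω → ℝ), IsDGFF N η P →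
          ENNReal.ofReal (1 - δ) ≤
              P {ω | chemDist N α β lam (fun v => η v ω) ≤ (⌊K / δ * (N : ℝ)⌋₊ : ℕ∞)} ∧
          ENNReal.ofReal (1 - δ) ≤
            P {ω | chemDist N α β lam (fun v => η v ω) ≤ (⌊K / δ * (N : ℝ)⌋₊ : ℕ∞)} /
              P {ω | chemDist N α β lam (fun v => η v ω) < ⊤}) ∧
    (∀ α : ℝ, 0 < α → α < 1 → ∀ lam δ : ℝ, 0 < δ →
      ∃ (β₀ C : ℝ) (N₀ : ℕ), α < β₀ ∧ β₀ < 1 ∧ 0 < C ∧ ∀ β : ℝ, α < β → β ≤ β₀ → ∀ N : ℕ, N₀ ≤ N →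
        ∀ (Ω : Type*) [MeasurableSpace Ω] (P : Measure Ω) (η : ℤ × ℤ → Ω → ℝ), IsDGFF N η P →
          ENNReal.ofReal (1 - δ) ≤
              P {ω | chemDist N α β lam (fun v => η v ω) ≤ (⌊C * (N : ℝ)⌋₊ : ℕ∞)} ∧
          ENNReal.ofReal (1 - δ) ≤
            P {ω | chemDist N α β lam (fun v => η v ω) ≤ (⌊C * (N : ℝ)⌋₊ : ℕ∞)} /
              P {ω | chemDist N α β lam (fun v => η v ω) < ⊤}) ∧
    (∀ α β : ℝ, 0 < α → α < β → β < 1 →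
      ∀ lam : ℝ, ∃ (C c : ℝ) (N₀ : ℕ), 0 < C ∧ 0 < c ∧ ∀ N : ℕ, N₀ ≤ N →
        ∀ (Ω : Type*) [MeasurableSpace Ω] (P : Measure Ω) (η : ℤ × ℤ → Ω → ℝ), IsDGFF N η P →
          ENNReal.ofReal c ≤
            P {ω | chemDist N α β lam (fun v => η v ω) ≤ (⌊C * (N : ℝ)⌋₊ : ℕ∞)} /
              P {ω | chemDist N α β lam (fun v => η v ω) < ⊤}) := by
  refine ⟨?_, ?_, ?_⟩
  · intro α β hα hαβ hβ
    obtain ⟨K, hK, h⟩ := annulus_q2.dgff_quant α β hα hαβ hβ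
    refine ⟨K, hK, fun δ hδ hδ1 => ?_⟩
    obtain ⟨N0, hN0⟩ := h δ hδ hδ1
    refine ⟨N0, fun N hN lam hlam Ω _ P η hη => ?_⟩
    have hP : IsProbabilityMeasure P := hη.gaussian.isProbabilityMeasure
    have h1 := hN0 N hN lam hlam Ω P η hη
    have h2 : ENNReal.ofReal (1 - δ) ≤
        P {ω | chemDist N α β lam (fun v => η v ω) ≤ (⌊K / δ * (N : ℝ)⌋₊ : ℕ∞)} :=
      h1.trans (measure_mono fun ω hω => chem_le N α β lam _ _ hω)
    exact ⟨h2, ratio_ge P _ _ _ h2⟩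
  · intro α hα hα1 lam δ hδ
    obtain ⟨β0, C, N0, h1, h2, h3, h⟩ := thin_dgff α hα hα1 lam δ hδ
    refine ⟨β0, C, N0, h1, h2, h3, fun β hβ hβ0 N hN Ω _ P η hη => ?_⟩
    have hP : IsProbabilityMeasure P := hη.gaussian.isProbabilityMeasure
    have h2 : ENNReal.ofReal (1 - δ) ≤
        P {ω | chemDist N α β lam (fun v => η v ω) ≤ (⌊C * (N : ℝ)⌋₊ : ℕ∞)} :=
      (h β hβ hβ0 N hN Ω P η hη).trans (measure_mono fun ω hω => chem_le N α β lam _ _ hω)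
    exact ⟨h2, ratio_ge P _ _ _ h2⟩
  · intro α β hα hαβ hβ lam
    obtain ⟨C, c, N0, hC, hc, h⟩ := full_large α β hα hαβ hβ lam
    refine ⟨C, c, N0, hC, hc, fun N hN Ω _ P η hη => ?_⟩
    have hP : IsProbabilityMeasure P := hη.gaussian.isProbabilityMeasure
    have h2 : ENNReal.ofReal c ≤
        P {ω | chemDist N α β lam (fun v => η v ω) ≤ (⌊C * (N : ℝ)⌋₊ : ℕ∞)} :=
      (h N hN Ω P η hη).trans (measure_mono fun ω hω => chem_le N α β lam _ _ hω)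
    exact ratio_ge P _ _ _ h2
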