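import Pool.Agent.H941.C.full_large
import Pool.Agent.H941.D.subquad

/-!
Problem MP_acf58e_pr, question Q1.  Write `D_N` for the chemical distance of `{η ≤ lam}` between `∂V_{αN}` and
`∂V_{βN}`.  There is a universal `ε₀ < 1` such that for all `0 < α < β < 1`, every fixed real level `lam` and every
`ε ≥ ε₀`, `P(D_N ≤ N^(1+ε) | D_N < ∞) → 1` as `N → ∞`.
-/

open MeasureTheory ProbabilityTheory H941

theorem Pool.Agent.Results.MP_acf58e_pr.SubquadraticDistance.result :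
    ∃ ε₀ : ℝ, 0 < ε₀ ∧ ε₀ < 1 ∧ ∀ α β : ℝ, 0 < α → α < β → β < 1 →
      ∀ lam ε : ℝ, ε₀ ≤ ε → ∀ δ : ℝ, 0 < δ → ∃ N₀ : ℕ, ∀ N : ℕ, N₀ ≤ N →
        ∀ (Ω : Type*) [MeasurableSpace Ω] (P : Measure Ω) (η : ℤ × ℤ → Ω → ℝ), IsDGFF N η P →
          ENNReal.ofReal (1 - δ) ≤
            P {ω | chemDist N α β lam (fun v => η v ω) ≤ (⌊(N : ℝ) ^ (1 + ε)⌋₊ : ℕ∞)} /
              P {ω | chemDist N α β lam (fun v => η v ω) < ⊤} := by
  obtain ⟨c, hc, hc1, htail⟩ := subquad.tail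
  refine ⟨1 - c, by linarith, by linarith, ?_⟩
  intro α β hα hαβ hβ lam ε hε δ hδ
  obtain ⟨C, c0, N1, hC, hc0, hlarge⟩ := full_large α β hα hαβ hβ lam
  obtain ⟨N2, hN2⟩ := htail α β hα hαβ hβ lam (δ * c0) (by positivity)
  refine ⟨N1 + N2 + 1, ?_⟩
  intro N hN Ω _ P η hη
  have hP : IsProbabilityMeasure P := hη.gaussian.isProbabilityMeasure
  by_cases hδ1 : δ < 1
  swap
  · rw [ENNReal.ofReal_of_nonpos (by linarith)]
    exact zero_le
  have hN1 : (1 : ℝ) ≤ N := by exact_mod_cast (by omega : 1 ≤ N)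
  set A : Set Ω := {ω | chemDist N α β lam (fun v => η v ω) ≤ (⌊(N : ℝ) ^ (1 + ε)⌋₊ : ℕ∞)} with hA
  set B : Set Ω := {ω | chemDist N α β lam (fun v => η v ω) < ⊤} with hB
  have h1 := hN2 N (by omega) Ω P η hη
  have h2 : ENNReal.ofReal c0 ≤ P B := by
    refine (hlarge N (by omega) Ω P η hη).trans (measure_mono ?_)
    intro ω hω
    exact lt_of_le_of_lt (chem_le N α β lam _ _ hω) (by exact_mod_cast ENat.natCast_lt_top _)
  have h3 : P B ≤ P A + ENNReal.ofReal δ * P B := by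
    have h4 : P B ≤ P A + P {ω | chemDist N α β lam (fun v => η v ω) < ⊤ ∧
        ¬ chemDist N α β lam (fun v => η v ω) ≤ (⌊(N : ℝ) ^ (2 - c)⌋₊ : ℕ∞)} := by
      refine le_trans (measure_mono ?_) (measure_union_le _ _)
      intro ω hω
      by_cases h : chemDist N α β lam (fun v => η v ω) ≤ (⌊(N : ℝ) ^ (2 - c)⌋₊ : ℕ∞)
      · left
        have h5 : ⌊(N : ℝ) ^ (2 - c)⌋₊ ≤ ⌊(N : ℝ) ^ (1 + ε)⌋₊ :=
          Nat.floor_mono (Real.rpow_le_rpow_of_exponent_le hN1 (by linarith))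
        exact h.trans (by exact_mod_cast h5)
      · right
        exact ⟨hω, h⟩
    refine h4.trans ?_
    gcongr
    refine h1.trans ?_
    rw [ENNReal.ofReal_mul hδ.le]
    gcongr
  have hBtop : P B ≠ ⊤ := measure_ne_top P B
  have hB0 : P B ≠ 0 := by
    intro h
    rw [h] at h2
    exact absurd h2 (by simpa using hc0)
  rw [ENNReal.le_div_iff_mul_le (Or.inl hB0) (Or.inl hBtop)]
  have h6 : ENNReal.ofReal (1 - δ) * P B + ENNReal.ofReal δ * P B ≤ P A + ENNReal.ofReal δ * P B := by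
    rw [← add_mul, ← ENNReal.ofReal_add (by linarith) hδ.le]
    have : 1 - δ + δ = 1 := by ring
    rw [this, ENNReal.ofReal_one, one_mul]
    exact h3
  exact (ENNReal.add_le_add_iff_right (ENNReal.mul_ne_top ENNReal.ofReal_ne_top hBtop)).1 h6
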